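import Pool.Agent.H93.BL.Targets

/-!
Module C1 of board bl_modules (MP_009700_an): thin triangles at a convex corner.
-/

namespace Pool.Agent.H98.BL.C1

open MeasureTheory Set Filter Topology Pool.Agent.H93.BL

lemma ratio (uj ue d : ℂ) (huj : ‖uj‖ = 1) (hue : ‖ue‖ = 1) (hd : ‖d‖ = 1)
    (hS : 0 < cr uj ue) :
    ∀ᶠ κ in 𝓝[>] (0 : ℝ), ∀ σ b l : ℝ, 0 < σ → 0 < b → b ≤ κ * σ → 0 ≤ l →
      (σ : ℂ) * uj + (b : ℂ) * ue ≠ (l : ℂ) * d := by
  have hS1 : cr uj ue ≤ 1 := by
    have := abs_cr_le uj ue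
    rw [huj, hue] at this
    linarith [le_abs_self (cr uj ue)]
  have hc0 : -1 ≤ ip ue uj := by
    have := abs_ip_le ue uj
    rw [huj, hue] at this
    linarith [neg_abs_le (ip ue uj)]
  have hd1 : ip d uj ≤ 1 := by
    have := abs_ip_le d uj
    rw [huj, hd] at this
    linarith [le_abs_self (ip d uj)]
  have huu : ip uj uj = 1 := by rw [ip_self, huj]; norm_num
  have key : ∀ κ σ b l : ℝ, 0 < κ → 0 < σ → 0 < b → b ≤ κ * σ → 0 ≤ l →
      (σ : ℂ) * uj + (b : ℂ) * ue = (l : ℂ) * d →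
      0 < cr uj d ∧ (κ < 1 → (1 - κ) * cr uj d ≤ κ) := by
    intro κ σ b l hκ hσ hb hbκ hl h
    have h1 : σ + b * ip ue uj = l * ip d uj := by
      have := congrArg (fun z => ip z uj) h
      simp only [ip_add_left, ip_smul_left, huu, mul_one] at this
      exact this
    have h2 : b * cr uj ue = l * cr uj d := by
      have := congrArg (fun z => cr uj z) h
      simp only [cr_add_right, cr_smul_right, cr_self, mul_zero, zero_add] at this
      exact this
    have h3 : 0 < l * cr uj d := by rw [← h2]; positivity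
    have hw : 0 < cr uj d := by
      rcases hl.lt_or_eq with h4 | h4
      · exact (mul_pos_iff_of_pos_left h4).1 h3
      · rw [← h4, zero_mul] at h3; exact absurd h3 (lt_irrefl 0)
    refine ⟨hw, fun hκ1 => ?_⟩
    have h5 : σ - b ≤ l := by nlinarith
    have h6 : σ * (1 - κ) ≤ l := by linarith
    have h7 : σ * ((1 - κ) * cr uj d) ≤ σ * κ := by
      calc σ * ((1 - κ) * cr uj d) = (σ * (1 - κ)) * cr uj d := by ring
        _ ≤ l * cr uj d := by exact mul_le_mul_of_nonneg_right h6 hw.le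
        _ = b * cr uj ue := h2.symm
        _ ≤ b * 1 := mul_le_mul_of_nonneg_left hS1 hb.le
        _ ≤ σ * κ := by linarith
    exact le_of_mul_le_mul_left h7 hσ
  by_cases hw : 0 < cr uj d
  · have e1 : ∀ᶠ κ in 𝓝[>] (0 : ℝ), κ < 1 / 2 :=
      nhdsWithin_le_nhds (gt_mem_nhds (by norm_num))
    have e2 : ∀ᶠ κ in 𝓝[>] (0 : ℝ), κ < cr uj d / 2 :=
      nhdsWithin_le_nhds (gt_mem_nhds (by positivity))
    filter_upwards [e1, e2, self_mem_nhdsWithin] with κ h1 h2 h0 σ b l hσ hb hbκ hl h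
    have h0 : 0 < κ := h0
    have := (key κ σ b l h0 hσ hb hbκ hl h).2 (by linarith)
    nlinarith
  · filter_upwards [self_mem_nhdsWithin] with κ h0 σ b l hσ hb hbκ hl h
    exact hw (key κ σ b l h0 hσ hb hbκ hl h).1

variable {ι : Type} (P : Polygon ι)

/-- no point of the thin region lies on the line of `j` -/
lemma off_line (j : ι) (ue : ℂ) (hS : 0 < cr (P.u j) ue) (σ b : ℝ) (hb : 0 < b) :
    P.p j + (σ : ℂ) * P.u j + (b : ℂ) * ue ∉ segment ℝ (P.p j) (P.q j) := by
  intro h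
  obtain ⟨s, -, -, h⟩ := (P.mem_segment_iff j _).1 h
  have := congrArg (fun z => cr (P.u j) (z - P.p j)) h
  simp only [add_sub_cancel_left, add_assoc, cr_add_right, cr_smul_right, cr_self, mul_zero,
    zero_add] at this
  have h2 : 0 < b * cr (P.u j) ue := by positivity
  linarith

lemma disj_front {x : ℂ} (hx : x ∈ P.Ω) (h : x ∈ frontier P.Ω) : False := by
  rw [P.isOpen.frontier_eq] at h
  exact h.2 hx

lemma seg_front (i : ι) {x : ℂ} (h : x ∈ segment ℝ (P.p i) (P.q i)) : x ∈ frontier P.Ω := by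
  rw [P.frontier_eq]
  exact mem_iUnion.2 ⟨i, h⟩

lemma thin_side (j e : ι) (hC : P.Corner j e) (i : ι) :
    ∀ᶠ κ in 𝓝[>] (0 : ℝ), ∀ σ b : ℝ, 0 < σ → σ < P.len j → 0 < b → b ≤ κ * σ →
      P.p j + (σ : ℂ) * P.u j + (b : ℂ) * P.u e ∉ segment ℝ (P.p i) (P.q i) := by
  obtain ⟨hqp, hS, ρ, hρ, hcor⟩ := hC
  by_cases hij : i = j
  · subst hij
    exact Eventually.of_forall fun κ σ b _ _ hb _ => off_line P i _ hS σ b hb
  by_cases hrev : P.p i = P.q j ∧ P.q i = P.p j
  · refine Eventually.of_forall fun κ σ b _ _ hb _ => ?_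
    rw [hrev.1, hrev.2, segment_symm]
    exact off_line P j _ hS σ b hb
  have hd1 : Disjoint (openSegment ℝ (P.p j) (P.q j)) (segment ℝ (P.p i) (P.q i)) := by
    rcases P.meet j i (Ne.symm hij) with h | h
    · exact h
    · exact absurd h hrev
  have hd2 : Disjoint (openSegment ℝ (P.p i) (P.q i)) (segment ℝ (P.p j) (P.q j)) := by
    rcases P.meet i j hij with h | h
    · exact h
    · exact absurd ⟨h.2.symm, h.1.symm⟩ hrev
  by_cases hp : P.p j ∈ segment ℝ (P.p i) (P.q i)
  · have hend : P.p j = P.p i ∨ P.p j = P.q i := by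
      by_contra hne
      push Not at hne
      have h1 : P.p j ∈ openSegment ℝ (P.p i) (P.q i) :=
        mem_openSegment_of_ne_left_right (Ne.symm hne.1) (Ne.symm hne.2) hp
      exact Set.disjoint_left.1 hd2 h1 (left_mem_segment ℝ _ _)
    rcases hend with hend | hend
    · filter_upwards [ratio (P.u j) (P.u e) (P.u i) (P.norm_u j) (P.norm_u e) (P.norm_u i) hS]
        with κ hκ σ b hσ hσL hb hbκ hmem
      obtain ⟨s, hs0, -, hs⟩ := (P.mem_segment_iff i _).1 hmem
      refine hκ σ b s hσ hb hbκ hs0 ?_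
      rw [hend] at hs
      have := congrArg (fun z => z - P.p i) hs
      simp only [add_assoc, add_sub_cancel_left] at this
      exact this
    · filter_upwards [ratio (P.u j) (P.u e) (-P.u i) (P.norm_u j) (P.norm_u e)
        (by rw [norm_neg]; exact P.norm_u i) hS] with κ hκ σ b hσ hσL hb hbκ hmem
      obtain ⟨s, -, hs1, hs⟩ := (P.mem_segment_iff i _).1 hmem
      refine hκ σ b (P.len i - s) hσ hb hbκ (by linarith) ?_
      rw [hend, P.q_eq i] at hs
      push_cast
      linear_combination hs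
  · have hK : IsCompact ((fun s : ℝ => P.p j + (s : ℂ) * P.u j) '' Icc 0 (P.len j - ρ)) :=
      isCompact_Icc.image (by fun_prop)
    have hcl : IsClosed (segment ℝ (P.p i) (P.q i)) := by
      have : IsCompact (segment ℝ (P.p i) (P.q i)) := by
        rw [segment_eq_image']
        exact isCompact_Icc.image (by fun_prop)
      exact this.isClosed
    have hKd : Disjoint ((fun s : ℝ => P.p j + (s : ℂ) * P.u j) '' Icc 0 (P.len j - ρ))
        (segment ℝ (P.p i) (P.q i)) := by
      rw [Set.disjoint_left]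
      rintro _ ⟨s, ⟨hs0, hs1⟩, rfl⟩ hmem
      rcases hs0.lt_or_eq with h | h
      · exact Set.disjoint_left.1 hd1 ((P.mem_openSegment_iff j _).2 ⟨s, h, by linarith, rfl⟩) hmem
      · apply hp
        rw [← h] at hmem
        simpa using hmem
    obtain ⟨δ, hδ, hdisj⟩ := hKd.exists_thickenings hK hcl
    have hL := P.len_pos j
    have e1 : ∀ᶠ κ in 𝓝[>] (0 : ℝ), κ < ρ / P.len j :=
      nhdsWithin_le_nhds (gt_mem_nhds (by positivity))
    have e2 : ∀ᶠ κ in 𝓝[>] (0 : ℝ), κ < δ / P.len j :=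
      nhdsWithin_le_nhds (gt_mem_nhds (by positivity))
    filter_upwards [e1, e2, self_mem_nhdsWithin] with κ h1 h2 h0 σ b hσ hσL hb hbκ hmem
    have h0 : 0 < κ := h0
    rw [lt_div_iff₀ hL] at h1 h2
    have hbL : b ≤ κ * P.len j := hbκ.trans (mul_le_mul_of_nonneg_left hσL.le h0.le)
    by_cases hσρ : P.len j - σ < ρ
    · refine disj_front P ?_ (seg_front P i hmem)
      have := hcor (P.len j - σ) ⟨by linarith, hσρ⟩ b ⟨hb, by linarith⟩
      rw [P.q_eq j] at this
      have e : P.p j + (P.len j : ℂ) * P.u j - ((P.len j - σ : ℝ) : ℂ) * P.u j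
          + (b : ℂ) * P.u e = P.p j + (σ : ℂ) * P.u j + (b : ℂ) * P.u e := by
        push_cast; ring
      rwa [e] at this
    · have hz : P.p j + (σ : ℂ) * P.u j ∈
          (fun s : ℝ => P.p j + (s : ℂ) * P.u j) '' Icc 0 (P.len j - ρ) :=
        ⟨σ, ⟨hσ.le, by linarith⟩, rfl⟩
      refine Set.disjoint_left.1 hdisj ?_ (Metric.self_subset_thickening hδ _ hmem)
      rw [Metric.mem_thickening_iff]
      refine ⟨_, hz, ?_⟩
      rw [dist_eq_norm, add_sub_cancel_left, norm_mul, P.norm_u e, mul_one, Complex.norm_real,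
        Real.norm_of_nonneg hb.le]
      linarith

lemma thin [Finite ι] (j e : ι) (hC : P.Corner j e) :
    ∃ κ > (0 : ℝ), ∀ σ b : ℝ, 0 < σ → σ < P.len j → 0 < b → b ≤ κ * σ →
      P.p j + (σ : ℂ) * P.u j + (b : ℂ) * P.u e ∈ P.Ω := by
  have h1 := eventually_all.2 (thin_side P j e hC)
  have h2 : ∀ᶠ κ in 𝓝[>] (0 : ℝ), 0 < κ := self_mem_nhdsWithin
  obtain ⟨κ, hκ, hκ0⟩ := (h1.and h2).exists
  obtain ⟨hqp, hS, ρ, hρ, hcor⟩ := hC
  refine ⟨κ, hκ0, ?_⟩
  have hL := P.len_pos j
  let T : Set (ℝ × ℝ) := {z | 0 < z.1 ∧ z.1 < P.len j ∧ 0 < z.2 ∧ z.2 ≤ κ * z.1}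
  have hT : Convex ℝ T := by
    have a1 : Convex ℝ {z : ℝ × ℝ | 0 < z.1} :=
      (convex_Ioi (0 : ℝ)).linear_preimage (LinearMap.fst ℝ ℝ ℝ)
    have a2 : Convex ℝ {z : ℝ × ℝ | z.1 < P.len j} :=
      (convex_Iio (P.len j)).linear_preimage (LinearMap.fst ℝ ℝ ℝ)
    have a3 : Convex ℝ {z : ℝ × ℝ | 0 < z.2} :=
      (convex_Ioi (0 : ℝ)).linear_preimage (LinearMap.snd ℝ ℝ ℝ)
    have a4 : Convex ℝ {z : ℝ × ℝ | z.2 ≤ κ * z.1} := by
      have := (convex_Iic (0 : ℝ)).linear_preimage
        (LinearMap.snd ℝ ℝ ℝ - κ • LinearMap.fst ℝ ℝ ℝ)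
      refine (congrArg (Convex ℝ) ?_).mp this
      ext z
      simp only [mem_preimage, mem_Iic, LinearMap.sub_apply, LinearMap.smul_apply,
        LinearMap.fst_apply, LinearMap.snd_apply, smul_eq_mul, mem_ofPred_eq, sub_nonpos]
    have := ((a1.inter a2).inter a3).inter a4
    refine (congrArg (Convex ℝ) ?_).mp this
    ext z
    simp only [mem_inter_iff, mem_ofPred_eq, T, and_assoc]
  have hTc : IsPreconnected T := hT.isPreconnected
  let f : ℝ × ℝ → ℂ := fun z => P.p j + (z.1 : ℂ) * P.u j + (z.2 : ℂ) * P.u e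
  have hf : Continuous f := by fun_prop
  have hR : IsPreconnected (f '' T) := hTc.image f hf.continuousOn
  have hsub : f '' T ⊆ P.Ω := by
    refine hR.subset_of_closure_inter_subset P.isOpen ?_ ?_
    · set a := min (ρ / 2) (P.len j / 2) with ha
      have ha0 : 0 < a := by positivity
      have ha1 : a ≤ ρ / 2 := min_le_left _ _
      have ha2 : a ≤ P.len j / 2 := min_le_right _ _
      set b := min (ρ / 2) (κ * (P.len j - a)) with hb
      have hb0 : 0 < b := lt_min (by positivity) (mul_pos hκ0 (by linarith))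
      have hb1 : b ≤ ρ / 2 := min_le_left _ _
      have hb2 : b ≤ κ * (P.len j - a) := min_le_right _ _
      refine ⟨f (P.len j - a, b), ⟨(P.len j - a, b), ⟨?_, ?_, hb0, hb2⟩, rfl⟩, ?_⟩
      · show 0 < P.len j - a
        linarith
      · show P.len j - a < P.len j
        linarith
      · have := hcor a ⟨ha0, by linarith⟩ b ⟨hb0, by linarith⟩
        rw [P.q_eq j] at this
        have e : P.p j + (P.len j : ℂ) * P.u j - (a : ℂ) * P.u j + (b : ℂ) * P.u e =
            f (P.len j - a, b) := by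
          simp only [f]; push_cast; ring
        rwa [e] at this
    · rintro _ ⟨hcl, ⟨z, ⟨hz1, hz2, hz3, hz4⟩, rfl⟩⟩
      by_contra hno
      have hfr : f z ∈ frontier P.Ω := by
        rw [P.isOpen.frontier_eq]
        exact ⟨hcl, hno⟩
      rw [P.frontier_eq, mem_iUnion] at hfr
      obtain ⟨i, hi⟩ := hfr
      exact hκ i z.1 z.2 hz1 hz2 hz3 hz4 hi
  intro σ b hσ hσL hb hbκ
  exact hsub ⟨(σ, b), ⟨hσ, hσL, hb, hbκ⟩, rfl⟩

theorem c1 : T_C1 := by
  intro ι _ P j e hC
  obtain ⟨κ, hκ, hthin⟩ := thin P j e hC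
  obtain ⟨hqp, hS, -⟩ := hC
  have hL := P.len_pos j
  have hLe := P.len_pos e
  set k := min κ (P.len e / P.len j) with hk
  have hk0 : 0 < k := lt_min hκ (by positivity)
  have hk1 : k ≤ κ := min_le_left _ _
  have hk2 : k * P.len j ≤ P.len e := by
    have := min_le_right κ (P.len e / P.len j)
    rw [← hk, le_div_iff₀ hL] at this
    exact this
  set S := cr (P.u j) (P.u e) with hSdef
  have hS1 : S ≤ 1 := by
    have := abs_cr_le (P.u j) (P.u e)
    rw [P.norm_u, P.norm_u] at this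
    linarith [le_abs_self (cr (P.u j) (P.u e))]
  set η := k * S / (2 * (1 + k)) with hη
  have hη0 : 0 < η := by positivity
  have hηk : η * (2 * (1 + k)) = k * S := by
    rw [hη]; field_simp
  have hη1 : η < 1 := by nlinarith
  have hc0 : ip (P.u j) (P.u e) ≤ 1 := by
    have := abs_ip_le (P.u j) (P.u e)
    rw [P.norm_u, P.norm_u] at this
    linarith [le_abs_self (ip (P.u j) (P.u e))]
  refine ⟨1 - η ^ 2 / 2, by linarith [sq_nonneg η, sq_pos_of_pos hη0], ?_⟩
  intro x hx v hv hvn hvu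
  obtain ⟨s0, hs0, hs1, rfl⟩ := (P.mem_openSegment_iff j x).1 hx
  set c := ip v (P.u j) with hc
  set s := ip v (P.n j) with hs
  have hcs : c ^ 2 + s ^ 2 = 1 := by
    have h1 := ip_sq_add_cr_sq v (P.u j)
    rw [hv, P.norm_u, P.cr_u] at h1
    rw [hc, hs]; linarith
  have hc1 : 1 / 2 < c := by nlinarith
  have hs2 : s < η := by
    have h1 : (1 - η ^ 2 / 2) ^ 2 < c ^ 2 := by
      apply pow_lt_pow_left₀ hvu (by nlinarith) (by norm_num)
    have h2 : s ^ 2 < η ^ 2 := by nlinarith [sq_nonneg (η ^ 2)]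
    exact lt_of_pow_lt_pow_left₀ 2 hη0.le h2
  have hvd : v = (c : ℂ) * P.u j + (s : ℂ) * P.n j := by
    have h1 := decomp (P.u j) v (P.norm_u j)
    rw [← P.ip_n j v] at h1
    exact h1
  have hued : P.u e = (ip (P.u j) (P.u e) : ℂ) * P.u j + (S : ℂ) * P.n j := by
    have h1 := decomp (P.u j) (P.u e) (P.norm_u j)
    rw [ip_comm (P.u e)] at h1
    exact h1
  set c0 := ip (P.u j) (P.u e) with hc0def
  set D := c * S - s * c0 with hD
  have hcrD : cr v (P.u e) = D := by
    rw [hvd, cr_add_left, cr_smul_left, cr_smul_left]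
    have : cr (P.n j) (P.u e) = -c0 := by
      unfold Polygon.n; rw [I_mul_cr]
    rw [this, hD]; ring
  have hD0 : S / 2 - s ≤ D := by
    have h1 : s * c0 ≤ s := by nlinarith
    have h2 : S / 2 ≤ c * S := by nlinarith
    rw [hD]; linarith
  have hDpos : 0 < D := by
    have : η < S / 2 := by nlinarith
    linarith
  have hsD : s ≤ k * D := by
    have h1 : k * (S / 2 - s) ≤ k * D := mul_le_mul_of_nonneg_left hD0 hk0.le
    nlinarith
  set a := P.len j - s0 with ha
  have ha0 : 0 < a := by linarith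
  have ht : 0 < a * S / D := by positivity
  have hSne : (S : ℂ) ≠ 0 := by exact_mod_cast hS.ne'
  -- coordinates of the points of the ray
  have hpt : ∀ r : ℝ, P.p j + (s0 : ℂ) * P.u j + (r : ℂ) * v =
      P.p j + ((s0 + r * D / S : ℝ) : ℂ) * P.u j + ((r * s / S : ℝ) : ℂ) * P.u e := by
    intro r
    rw [hued, hvd, hD]
    push_cast
    field_simp
    ring
  refine ⟨a * S / D, ht, ?_, ?_, ?_⟩
  · rintro r ⟨hr0, hr1⟩
    rw [lt_div_iff₀ hDpos] at hr1
    rw [hpt r]
    apply hthin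
    · positivity
    · have : r * D / S < a := by rw [div_lt_iff₀ hS]; exact hr1
      linarith
    · positivity
    · have h1 : r * s / S ≤ κ * (r * D / S) := by
        rw [div_le_iff₀ hS]
        have : κ * (r * D / S) * S = r * (κ * D) := by field_simp
        rw [this]
        have h2 : k * D ≤ κ * D := mul_le_mul_of_nonneg_right hk1 hDpos.le
        exact mul_le_mul_of_nonneg_left (hsD.trans h2) hr0.le
      have h2 : κ * (r * D / S) ≤ κ * (s0 + r * D / S) :=
        mul_le_mul_of_nonneg_left (by linarith) hκ.le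
      exact h1.trans h2
  · rw [hpt]
    have e1 : s0 + a * S / D * D / S = P.len j := by
      field_simp
      rw [ha]; ring
    rw [e1, ← P.q_eq j, hqp]
    refine (P.mem_openSegment_iff e _).2 ⟨_, by positivity, ?_, rfl⟩
    have e2 : a * S / D * s / S = a * s / D := by field_simp
    rw [e2, div_lt_iff₀ hDpos]
    have h1 : a * s < P.len j * s := mul_lt_mul_of_pos_right (by linarith) hvn
    have h2 : P.len j * s ≤ P.len j * (k * D) := mul_le_mul_of_nonneg_left hsD hL.le
    have h3 : P.len j * (k * D) ≤ P.len e * D := by nlinarith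
    linarith
  · rw [P.ip_n, cr_swap, hcrD]
    linarith

end Pool.Agent.H98.BL.C1
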