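import Pool.Agent.H93.BL.Targets

/-!
Modules C2 and C3 of board bl_modules (MP_009700_an): the mirror polygon, and convex corners are
grazing.
-/

namespace Pool.Agent.H98.BL.C2

open MeasureTheory Set Filter Topology Pool.Agent.H93.BL

lemma conj_line (p q : ℂ) (s : ℝ) :
    (starRingEnd ℂ) (p + (s : ℂ) * (q - p)) =
      (starRingEnd ℂ) q + ((1 - s : ℝ) : ℂ) * ((starRingEnd ℂ) p - (starRingEnd ℂ) q) := by
  simp only [map_add, map_sub, map_mul, Complex.conj_ofReal]
  push_cast; ring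

lemma mem_seg (p q x : ℂ) :
    x ∈ segment ℝ ((starRingEnd ℂ) q) ((starRingEnd ℂ) p) ↔
      (starRingEnd ℂ) x ∈ segment ℝ p q := by
  rw [segment_eq_image', segment_eq_image']
  constructor
  · rintro ⟨s, ⟨h0, h1⟩, rfl⟩
    refine ⟨1 - s, ⟨by linarith, by linarith⟩, ?_⟩
    simp only [Complex.real_smul, map_add, map_sub, map_mul, Complex.conj_ofReal,
      Complex.conj_conj]
    push_cast; ring
  · rintro ⟨s, ⟨h0, h1⟩, h⟩
    refine ⟨1 - s, ⟨by linarith, by linarith⟩, ?_⟩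
    have h2 : x = (starRingEnd ℂ) (p + s • (q - p)) := by
      simp only at h
      rw [h, Complex.conj_conj]
    rw [h2]
    simp only [Complex.real_smul, map_add, map_sub, map_mul, Complex.conj_ofReal]
    push_cast; ring

lemma mem_oseg (p q x : ℂ) :
    x ∈ openSegment ℝ ((starRingEnd ℂ) q) ((starRingEnd ℂ) p) ↔
      (starRingEnd ℂ) x ∈ openSegment ℝ p q := by
  rw [openSegment_eq_image', openSegment_eq_image']
  constructor
  · rintro ⟨s, ⟨h0, h1⟩, rfl⟩
    refine ⟨1 - s, ⟨by linarith, by linarith⟩, ?_⟩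
    simp only [Complex.real_smul, map_add, map_sub, map_mul, Complex.conj_ofReal,
      Complex.conj_conj]
    push_cast; ring
  · rintro ⟨s, ⟨h0, h1⟩, h⟩
    refine ⟨1 - s, ⟨by linarith, by linarith⟩, ?_⟩
    have h2 : x = (starRingEnd ℂ) (p + s • (q - p)) := by
      simp only at h
      rw [h, Complex.conj_conj]
    rw [h2]
    simp only [Complex.real_smul, map_add, map_sub, map_mul, Complex.conj_ofReal]
    push_cast; ring

lemma conj_inj {a b : ℂ} (h : (starRingEnd ℂ) a = (starRingEnd ℂ) b) : a = b :=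
  (starRingEnd ℂ).injective h

/-- the mirror image of a polygon -/
noncomputable def mir {ι : Type} (P : Polygon ι) : Polygon ι where
  Ω := (starRingEnd ℂ) ⁻¹' P.Ω
  p := fun i => (starRingEnd ℂ) (P.q i)
  q := fun i => (starRingEnd ℂ) (P.p i)
  isOpen := P.isOpen.preimage Complex.continuous_conj
  isConnected := by
    have h : (starRingEnd ℂ) ⁻¹' P.Ω = (starRingEnd ℂ) '' P.Ω := by
      ext x
      constructor
      · intro hx
        exact ⟨_, hx, Complex.conj_conj x⟩
      · rintro ⟨y, hy, rfl⟩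
        simpa using hy
    rw [h]
    exact P.isConnected.image _ Complex.continuous_conj.continuousOn
  isBounded := by
    obtain ⟨R, hR⟩ := P.isBounded.exists_norm_le
    refine isBounded_iff_forall_norm_le.2 ⟨R, fun x hx => ?_⟩
    have := hR _ hx
    rwa [Complex.norm_conj] at this
  ne := fun i h => P.ne i (conj_inj h).symm
  frontier_eq := by
    have h : frontier ((starRingEnd ℂ) ⁻¹' P.Ω) = (starRingEnd ℂ) ⁻¹' frontier P.Ω :=
      (Complex.conjLIE.toHomeomorph.preimage_frontier P.Ω).symm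
    rw [h, P.frontier_eq]
    ext x
    simp only [mem_preimage, mem_iUnion, mem_seg]
  left := by
    intro i x hx
    obtain ⟨ε, hε, h⟩ := P.left i _ ((mem_oseg _ _ _).1 hx)
    refine ⟨ε, hε, fun t ht => ?_⟩
    have := h t ht
    show (starRingEnd ℂ) _ ∈ P.Ω
    have e : (starRingEnd ℂ) (x + (t : ℂ) * (Complex.I * ((starRingEnd ℂ) (P.p i) -
        (starRingEnd ℂ) (P.q i)))) =
        (starRingEnd ℂ) x + (t : ℂ) * (Complex.I * (P.q i - P.p i)) := by
      simp only [map_add, map_sub, map_mul, Complex.conj_ofReal, Complex.conj_conj,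
        Complex.conj_I]
      ring
    rw [e]
    exact this
  meet := by
    intro i j hij
    rcases P.meet i j hij with h | h
    · left
      rw [Set.disjoint_left] at h ⊢
      intro x hx hx'
      exact h ((mem_oseg _ _ _).1 hx) ((mem_seg _ _ _).1 hx')
    · right
      exact ⟨congrArg _ h.2, congrArg _ h.1⟩
  slit := by
    intro i x hx hε
    obtain ⟨ε, hε, h⟩ := hε
    obtain ⟨j, h1, h2⟩ := P.slit i _ ((mem_oseg _ _ _).1 hx) ⟨ε, hε, fun t ht => by
      have h3 : (starRingEnd ℂ) _ ∈ P.Ω := h t ht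
      have e : (starRingEnd ℂ) (x - (t : ℂ) * (Complex.I * ((starRingEnd ℂ) (P.p i) -
          (starRingEnd ℂ) (P.q i)))) =
          (starRingEnd ℂ) x - (t : ℂ) * (Complex.I * (P.q i - P.p i)) := by
        simp only [map_add, map_sub, map_mul, Complex.conj_ofReal, Complex.conj_conj,
          Complex.conj_I]
        ring
      rw [e] at h3
      exact h3⟩
    exact ⟨j, congrArg _ h2, congrArg _ h1⟩

variable {ι : Type} (P : Polygon ι)

lemma mir_p (i : ι) : (mir P).p i = (starRingEnd ℂ) (P.q i) := rfl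
lemma mir_q (i : ι) : (mir P).q i = (starRingEnd ℂ) (P.p i) := rfl

lemma mir_len (i : ι) : (mir P).len i = P.len i := by
  unfold Polygon.len
  rw [mir_p, mir_q, ← map_sub, Complex.norm_conj, norm_sub_rev]

lemma mir_u (i : ι) : (mir P).u i = -(starRingEnd ℂ) (P.u i) := by
  unfold Polygon.u
  rw [mir_len, mir_p, mir_q, map_div₀, map_sub, Complex.conj_ofReal]
  ring

lemma mir_n (i : ι) : (mir P).n i = (starRingEnd ℂ) (P.n i) := by
  unfold Polygon.n
  rw [mir_u, map_mul, Complex.conj_I]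
  ring

lemma ip_conj (a b : ℂ) : ip ((starRingEnd ℂ) a) ((starRingEnd ℂ) b) = ip a b := by
  simp only [ip, Complex.conj_re, Complex.conj_im]; ring

lemma cr_conj (a b : ℂ) : cr ((starRingEnd ℂ) a) ((starRingEnd ℂ) b) = -cr a b := by
  simp only [cr, Complex.conj_re, Complex.conj_im]; ring

theorem c2 (hC1 : T_C1) : T_C2 := by
  intro ι _ P j e hC
  obtain ⟨hqp, hS, ρ, hρ, hcor⟩ := hC
  have hC' : (mir P).Corner j e := by
    refine ⟨?_, ?_, ρ, hρ, ?_⟩
    · rw [mir_q, mir_p, hqp]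
    · rw [mir_u, mir_u, cr_neg_left, cr_neg_right, neg_neg, cr_conj, ← cr_swap]
      exact hS
    · intro a ha b hb
      have h := hcor b hb a ha
      show (starRingEnd ℂ) _ ∈ P.Ω
      rw [mir_q, mir_u, mir_u]
      have e : (starRingEnd ℂ) ((starRingEnd ℂ) (P.p j) - (a : ℂ) * -(starRingEnd ℂ) (P.u j) +
          (b : ℂ) * -(starRingEnd ℂ) (P.u e)) =
          P.q e - (b : ℂ) * P.u e + (a : ℂ) * P.u j := by
        simp only [map_add, map_sub, map_mul, map_neg, Complex.conj_ofReal, Complex.conj_conj]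
        rw [hqp]; ring
      rw [e]
      exact h
  obtain ⟨m, hm, h⟩ := hC1 ι (mir P) j e hC'
  refine ⟨m, hm, fun x hx v hv hvn hvu => ?_⟩
  obtain ⟨t, ht0, ht1, ht2, ht3⟩ := h ((starRingEnd ℂ) x)
    ((mem_oseg _ _ _).2 (by rw [Complex.conj_conj]; exact hx)) ((starRingEnd ℂ) v)
    (by rw [Complex.norm_conj]; exact hv)
    (by rw [mir_n, ip_conj]; exact hvn)
    (by rw [mir_u, ip_neg_right, ip_conj]; exact hvu)
  have hc : ∀ r : ℝ, (starRingEnd ℂ) ((starRingEnd ℂ) x + (r : ℂ) * (starRingEnd ℂ) v) =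
      x + (r : ℂ) * v := by
    intro r
    simp only [map_add, map_mul, Complex.conj_ofReal, Complex.conj_conj]
  refine ⟨t, ht0, fun r hr => ?_, ?_, ?_⟩
  · have h1 : (starRingEnd ℂ) _ ∈ P.Ω := ht1 r hr
    rw [hc] at h1
    exact h1
  · have h1 := (mem_oseg _ _ _).1 ht2
    rw [hc] at h1
    exact h1
  · rw [mir_n, ip_conj] at ht3
    exact ht3

theorem c3 (hC1 : T_C1) (hC2 : T_C2) (hB1 : T_B1) (hB4 : T_B4) : T_C3 := by
  intro ι _ P E j e he hC
  rcases hC with hC | hC
  · obtain ⟨m, hm, h⟩ := hC1 ι P j e hC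
    refine ⟨m, hm, Or.inr fun s φ hz hφ => ?_⟩
    obtain ⟨h1, h2, h3⟩ := (hB1 ι P (j, s, φ) (j, s, φ)).1 hz
    obtain ⟨t, ht⟩ := h _ h1 _ h2 h3 (by rw [P.ip_dir_u (j, s, φ)]; exact hφ)
    obtain ⟨z', hz', hz1⟩ := hB4 ι P (j, s, φ) e t hz ht
    exact ⟨z', Relation.ReflTransGen.single hz', hz1 ▸ he⟩
  · obtain ⟨m, hm, h⟩ := hC2 ι P j e hC
    refine ⟨m, hm, Or.inl fun s φ hz hφ => ?_⟩
    obtain ⟨h1, h2, h3⟩ := (hB1 ι P (j, s, φ) (j, s, φ)).1 hz
    obtain ⟨t, ht⟩ := h _ h1 _ h2 h3 (by rw [P.ip_dir_u (j, s, φ), neg_neg]; exact hφ)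
    obtain ⟨z', hz', hz1⟩ := hB4 ι P (j, s, φ) e t hz ht
    exact ⟨z', Relation.ReflTransGen.single hz', hz1 ▸ he⟩

end Pool.Agent.H98.BL.C2
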